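import Pool.Agent.PJC.Stmts

/-! Squad PJC, row SEC (helper67): second moments of two sides. -/

set_option autoImplicit false

namespace Pool.Agent.PJC.H67

open Pool.Agent.PJC

variable {n : ℕ}

/-- One step of near stationarity for the square of a linear function. -/
lemma key (r : Side n) (R : Set (Eu n)) (ε d : ℝ) (hn : 1 ≤ n) (h : r.Good R ε d)
    (he : ∀ b, r.e b ≤ ε) (x : Eu n) (hx : ∀ z ∈ R, |inner ℝ x z| ≤ √n) :
    4 * r.ex (fun b j => inner ℝ x (r.V b j) ^ 2) ≤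
      2 * ε * r.ex (fun b _ => inner ℝ x (r.t b) ^ 2) + d * n := by
  have hn0 : (0 : ℝ) < n := by exact_mod_cast hn
  have hst := h.stat (fun z => inner ℝ x z ^ 2 / n) (by
    intro z hz
    have h1 : inner ℝ x z ^ 2 ≤ (n : ℝ) := by
      have h2 := hx z hz
      rw [← sq_abs]
      calc |inner ℝ x z| ^ 2 ≤ √n ^ 2 := pow_le_pow_left₀ (abs_nonneg _) h2 2
        _ = n := Real.sq_sqrt hn0.le
    rw [abs_of_nonneg (by positivity), div_le_one hn0]
    exact h1)
  have hpt : ∀ b, ∑ j, r.w b j * (inner ℝ x (r.t' b j) ^ 2 / n) - inner ℝ x (r.t b) ^ 2 / n =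
      (4 * ∑ j, r.w b j * inner ℝ x (r.V b j) ^ 2 - 2 * r.e b * inner ℝ x (r.t b) ^ 2) / n := by
    intro b
    have hV : ∀ j, inner ℝ x (r.V b j) = (inner ℝ x (r.t b) - inner ℝ x (r.t' b j)) / 2 := by
      intro j
      unfold Side.V
      rw [inner_smul_right, inner_sub_right]
      ring
    have hm : ∑ j, r.w b j * inner ℝ x (r.t' b j) = (1 - r.e b) * inner ℝ x (r.t b) := by
      have h3 : inner ℝ x (∑ j, r.w b j • r.t' b j) = (1 - r.e b) * inner ℝ x (r.t b) := by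
        rw [h.mean b, inner_smul_right]
      rw [← h3, inner_sum]
      refine Finset.sum_congr rfl fun j _ => ?_
      rw [inner_smul_right]
    have h1 := h.w1 b
    have e1 : 4 * ∑ j, r.w b j * inner ℝ x (r.V b j) ^ 2 =
        inner ℝ x (r.t b) ^ 2 * ∑ j, r.w b j - 2 * inner ℝ x (r.t b) *
          ∑ j, r.w b j * inner ℝ x (r.t' b j) + ∑ j, r.w b j * inner ℝ x (r.t' b j) ^ 2 := by
      simp only [Finset.mul_sum, ← Finset.sum_sub_distrib, ← Finset.sum_add_distrib]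
      refine Finset.sum_congr rfl fun j _ => ?_
      rw [hV j]
      ring
    have e2 : ∑ j, r.w b j * (inner ℝ x (r.t' b j) ^ 2 / n) =
        (∑ j, r.w b j * inner ℝ x (r.t' b j) ^ 2) / n := by
      rw [Finset.sum_div]
      refine Finset.sum_congr rfl fun j _ => ?_
      ring
    rw [e2, e1, h1, hm]
    ring
  have hsum : ∑ b, r.μ b * (∑ j, r.w b j * (inner ℝ x (r.t' b j) ^ 2 / n) -
      inner ℝ x (r.t b) ^ 2 / n) =
      (4 * r.ex (fun b j => inner ℝ x (r.V b j) ^ 2) -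
        2 * ∑ b, r.μ b * (r.e b * inner ℝ x (r.t b) ^ 2)) / n := by
    unfold Side.ex
    rw [Finset.mul_sum, Finset.mul_sum, ← Finset.sum_sub_distrib, Finset.sum_div]
    refine Finset.sum_congr rfl fun b _ => ?_
    rw [hpt b]
    ring
  rw [hsum] at hst
  have h5 := (abs_le.mp hst).2
  rw [div_le_iff₀ hn0] at h5
  have h6 : ∑ b, r.μ b * (r.e b * inner ℝ x (r.t b) ^ 2) ≤
      ε * r.ex (fun b _ => inner ℝ x (r.t b) ^ 2) := by
    rw [r.ex_left h.wt, Finset.mul_sum]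
    refine Finset.sum_le_sum fun b _ => ?_
    have h7 := mul_le_mul_of_nonneg_right (he b) (sq_nonneg (inner ℝ x (r.t b)))
    calc r.μ b * (r.e b * inner ℝ x (r.t b) ^ 2) ≤ r.μ b * (ε * inner ℝ x (r.t b) ^ 2) :=
          mul_le_mul_of_nonneg_left h7 (h.mu0 b)
      _ = ε * (r.μ b * inner ℝ x (r.t b) ^ 2) := by ring
  linarith

/-- SEC with the bounds for the rates. -/
theorem sec_core (n : ℕ) (s r : Side n) (S R : Set (Eu n)) (η d σ : ℝ) (hn : 4 ≤ n)
    (hη : 0 < η) (hη1 : η ≤ 1 / 10) (hd0 : 0 ≤ d) (hd : d ≤ η ^ 4 / (n : ℝ) ^ 3)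
    (hs : s.Good S ((2 + η ^ 4) / n) d) (hr : r.Good R ((2 + η ^ 4) / n) d)
    (hes : ∀ a, s.e a ≤ (2 + η ^ 4) / n) (her : ∀ b, r.e b ≤ (2 + η ^ 4) / n)
    (hc : Cross s r S R) :
    ex2 s r (fun a i b _ => XX s r a i b ^ 2) ≤ (1 + η) / n ∧
    ex2 s r (fun a i b j => BB s r a i b j ^ 2) ≤ 1 + 2 * η ∧
    (1 - σ ≤ ex2 s r (fun a i b j => BB s r a i b j ^ 2) →
      1 - (σ + 2 * η) ≤ ex2 s r (fun a _ b _ => yy s r a b ^ 2)) := by
  have hnR : (4 : ℝ) ≤ n := by exact_mod_cast hn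
  have hn0 : (0 : ℝ) < n := by linarith
  have hsq : √(n : ℝ) ^ 2 = n := Real.sq_sqrt hn0.le
  set ε : ℝ := (2 + η ^ 4) / n with hε
  -- bounds of the inner products
  have hVz : ∀ a i, ∀ z ∈ R, |inner ℝ (s.V a i) z| ≤ √n := by
    intro a i z hz
    have h1 := hc.st _ (hs.tS a) z hz
    have h2 := hc.st _ (hs.tS' a i) z hz
    unfold Side.V
    rw [real_inner_smul_left, inner_sub_left]
    rw [abs_le] at h1 h2 ⊢
    constructor <;> linarith [h1.1, h1.2, h2.1, h2.2]
  -- (i)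
  have hi : 4 * ex2 s r (fun a i b j => BB s r a i b j ^ 2) ≤
      2 * ε * n ^ 2 * ex2 s r (fun a i b _ => XX s r a i b ^ 2) + d * n ^ 2 := by
    have h1 : ∀ a i, 4 * r.ex (fun b j => BB s r a i b j ^ 2) ≤
        2 * ε * n ^ 2 * r.ex (fun b _ => XX s r a i b ^ 2) + d * n ^ 2 := by
      intro a i
      have h2 := key r R ε d (by omega) hr her (s.V a i) (hVz a i)
      have e1 : r.ex (fun b j => BB s r a i b j ^ 2) =
          n * r.ex (fun b j => inner ℝ (s.V a i) (r.V b j) ^ 2) := by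
        rw [← r.ex_mul_left]
        congr 1
        funext b j
        unfold BB
        rw [mul_pow, hsq]
      have e2 : r.ex (fun b _ => inner ℝ (s.V a i) (r.t b) ^ 2) =
          n * r.ex (fun b _ => XX s r a i b ^ 2) := by
        rw [← r.ex_mul_left]
        congr 1
        funext b j
        unfold XX
        rw [div_pow, hsq]
        field_simp
      rw [e2] at h2
      rw [e1]
      have h3 := mul_le_mul_of_nonneg_left h2 hn0.le
      calc 4 * ((n : ℝ) * r.ex (fun b j => inner ℝ (s.V a i) (r.V b j) ^ 2))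
          = (n : ℝ) * (4 * r.ex (fun b j => inner ℝ (s.V a i) (r.V b j) ^ 2)) := by ring
        _ ≤ (n : ℝ) * (2 * ε * (n * r.ex (fun b _ => XX s r a i b ^ 2)) + d * n) := h3
        _ = 2 * ε * n ^ 2 * r.ex (fun b _ => XX s r a i b ^ 2) + d * n ^ 2 := by ring
    have h4 := s.ex_mono hs.wt h1
    rw [s.ex_add, s.ex_const hs.wt, s.ex_mul_left, s.ex_mul_left] at h4
    exact h4
  -- (ii)
  have hii : 4 * ex2 s r (fun a i b _ => XX s r a i b ^ 2) ≤
      2 * ε * ex2 s r (fun a _ b _ => yy s r a b ^ 2) + d := by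
    have h1 : ∀ (b : r.A) (_ : r.I), 4 * s.ex (fun a i => XX s r a i b ^ 2) ≤
        2 * ε * s.ex (fun a _ => yy s r a b ^ 2) + d := by
      intro b _
      have h2 := key s S ε d (by omega) hs hes (r.t b) (by
        intro z hz
        rw [real_inner_comm]
        exact hc.st z hz _ (hr.tS b))
      have e1 : s.ex (fun a i => inner ℝ (r.t b) (s.V a i) ^ 2) =
          n * s.ex (fun a i => XX s r a i b ^ 2) := by
        rw [← s.ex_mul_left]
        congr 1
        funext a i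
        unfold XX
        rw [div_pow, hsq, real_inner_comm]
        field_simp
      have e2 : s.ex (fun a _ => inner ℝ (r.t b) (s.t a) ^ 2) =
          n * s.ex (fun a _ => yy s r a b ^ 2) := by
        rw [← s.ex_mul_left]
        congr 1
        funext a i
        unfold yy
        rw [div_pow, hsq, real_inner_comm]
        field_simp
      rw [e1, e2] at h2
      have h3 : (n : ℝ) * (4 * s.ex (fun a i => XX s r a i b ^ 2)) ≤
          n * (2 * ε * s.ex (fun a _ => yy s r a b ^ 2) + d) := by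
        linarith
      exact le_of_mul_le_mul_left h3 hn0
    have h4 := r.ex_mono hr.wt h1
    rw [r.ex_add, r.ex_const hr.wt, r.ex_mul_left, r.ex_mul_left] at h4
    rw [ex2_comm, ex2_comm]
    exact h4
  -- bounds of y
  have hy1 : ex2 s r (fun a _ b _ => yy s r a b ^ 2) ≤ 1 := by
    have h1 := ex2_mono s r hs.wt hr.wt (F := fun a _ b _ => yy s r a b ^ 2)
      (G := fun _ _ _ _ => 1) (by
        intro a i b j
        have h2 := hc.st _ (hs.tS a) _ (hr.tS b)
        show (inner ℝ (s.t a) (r.t b) / √n) ^ 2 ≤ 1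
        rw [div_pow, hsq, div_le_one hn0, ← sq_abs]
        calc |inner ℝ (s.t a) (r.t b)| ^ 2 ≤ √n ^ 2 := pow_le_pow_left₀ (abs_nonneg _) h2 2
          _ = n := hsq)
    rwa [ex2_const s r hs.wt hr.wt] at h1
  have hy0 : 0 ≤ ex2 s r (fun a _ b _ => yy s r a b ^ 2) :=
    ex2_nonneg s r hs.wt hr.wt fun a i b j => sq_nonneg _
  set P := ex2 s r (fun a i b _ => XX s r a i b ^ 2) with hP
  set B := ex2 s r (fun a i b j => BB s r a i b j ^ 2) with hB
  set Y := ex2 s r (fun a _ b _ => yy s r a b ^ 2) with hY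
  -- arithmetic
  obtain ⟨a, ha⟩ : ∃ a : ℝ, a = η ^ 4 := ⟨_, rfl⟩
  have ha0 : 0 ≤ a := by rw [ha]; positivity
  have ha1 : a ≤ η / 1000 := by
    rw [ha]
    have h1 : η ^ 3 ≤ (1 / 10) ^ 3 := pow_le_pow_left₀ hη.le hη1 3
    calc η ^ 4 = η * η ^ 3 := by ring
      _ ≤ η * (1 / 10) ^ 3 := mul_le_mul_of_nonneg_left h1 hη.le
      _ = η / 1000 := by ring
  have hεn : ε * n = 2 + a := by
    rw [hε, ha]
    field_simp
  obtain ⟨D, hD⟩ : ∃ D : ℝ, D = d * n ^ 2 := ⟨_, rfl⟩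
  have hD0 : 0 ≤ D := by rw [hD]; positivity
  have hD1 : D ≤ a / 4 := by
    rw [hD]
    have h1 : d * n ^ 2 ≤ η ^ 4 / (n : ℝ) ^ 3 * n ^ 2 :=
      mul_le_mul_of_nonneg_right hd (by positivity)
    have h2 : η ^ 4 / (n : ℝ) ^ 3 * n ^ 2 = a / n := by
      rw [ha]
      field_simp
    rw [h2] at h1
    refine h1.trans ?_
    exact div_le_div_of_nonneg_left ha0 (by norm_num) hnR
  have hdn : d * n ≤ D / 4 := by
    rw [hD]
    have h1 : d * n * 4 ≤ d * n * n := mul_le_mul_of_nonneg_left hnR (by positivity)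
    nlinarith [h1]
  obtain ⟨p, hp⟩ : ∃ p : ℝ, p = n * P := ⟨_, rfl⟩
  have h1 : 4 * B ≤ 2 * (2 + a) * p + D := by
    have e1 : 2 * ε * n ^ 2 * P = 2 * (ε * n) * (n * P) := by ring
    rw [e1, hεn, ← hp, ← hD] at hi
    exact hi
  have h2 : 4 * p ≤ 2 * (2 + a) * Y + D / 4 := by
    have h3 := mul_le_mul_of_nonneg_left hii hn0.le
    have e1 : (n : ℝ) * (4 * P) = 4 * p := by rw [hp]; ring
    have e2 : (n : ℝ) * (2 * ε * Y + d) = 2 * (ε * n) * Y + d * n := by ring
    rw [e1, e2, hεn] at h3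
    linarith
  have hp1 : p ≤ 1 + a := by
    have h3 : 2 * (2 + a) * Y ≤ 2 * (2 + a) * 1 :=
      mul_le_mul_of_nonneg_left hy1 (by positivity)
    linarith
  refine ⟨?_, ?_, ?_⟩
  · rw [le_div_iff₀ hn0]
    have e1 : P * n = p := by rw [hp]; ring
    rw [e1]
    linarith
  · have h3 : 2 * (2 + a) * p ≤ 2 * (2 + a) * (1 + a) :=
      mul_le_mul_of_nonneg_left hp1 (by positivity)
    have h4 : 2 * (2 + a) * (1 + a) = 4 + 6 * a + 2 * (a * a) := by ring
    have h5 : a * a ≤ a := by nlinarith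
    linarith
  · intro hB1
    by_contra hcon
    rw [not_le] at hcon
    have h3 : 2 * (2 + a) * (4 * p) ≤ 2 * (2 + a) * (2 * (2 + a) * Y + D / 4) :=
      mul_le_mul_of_nonneg_left h2 (by positivity)
    have h4 : 16 * (1 - σ) ≤ 4 * (2 + a) ^ 2 * Y + 2 * (2 + a) * (D / 4) + 4 * D := by
      nlinarith [h3, h1, hB1]
    have h5 : 4 * (2 + a) ^ 2 * Y ≤ 16 * Y + 16 * a + 4 * (a * a) := by
      have h6 : 4 * (2 + a) ^ 2 * Y = 16 * Y + (16 * a + 4 * (a * a)) * Y := by ring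
      rw [h6]
      have h7 : (16 * a + 4 * (a * a)) * Y ≤ (16 * a + 4 * (a * a)) * 1 :=
        mul_le_mul_of_nonneg_left hy1 (by positivity)
      linarith
    have h8 : a * a ≤ a := by nlinarith
    have h9 : 2 * (2 + a) * (D / 4) ≤ 2 * (2 + 1) * (D / 4) :=
      mul_le_mul_of_nonneg_right (by linarith) (by positivity)
    linarith

/-- The rate is at most `ε`. -/
lemma e_le (s : Side n) (S : Set (Eu n)) (ε d : ℝ) (h : s.Good S ε d) (hε : ε < 1) (a : s.A) :
    s.e a ≤ ε := by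
  have hk0 := h.k0 a
  have hk1 := h.k1 a
  have he0 := h.e0 a
  have hb := h.bud a
  have hQ : 0 ≤ ∑ i, s.w a i * (1 + inner ℝ (s.t' a i) (s.v a i)) := by
    refine Finset.sum_nonneg fun i _ => mul_nonneg (h.w0 a i) ?_
    have h1 := (abs_le.mp (h.pol _ (h.tS' a i) a i)).1
    linarith
  set Q := ∑ i, s.w a i * (1 + inner ℝ (s.t' a i) (s.v a i)) with hQd
  have h2 : s.k a ≤ ε := by
    have h3 : 0 ≤ (1 - s.k a) * (Q + s.e a) := mul_nonneg (by linarith) (by linarith)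
    linarith
  have h4 : (1 - s.k a) * s.e a ≤ (1 - s.k a) * (Q + s.e a) :=
    mul_le_mul_of_nonneg_left (by linarith) (by linarith)
  -- (1 - k) e ≤ ε - k ≤ (1 - k) ε
  have h5 : (1 - s.k a) * s.e a ≤ (1 - s.k a) * ε := by
    have h6 : s.k a * ε ≤ s.k a * 1 := mul_le_mul_of_nonneg_left hε.le hk0
    nlinarith
  have h7 : 0 < 1 - s.k a := by linarith
  exact le_of_mul_le_mul_left h5 h7

theorem sec : SecStmt := by
  intro n s r S R η d σ hn hη hη1 hd0 hd hs hr hc _ _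
  have hnR : (4 : ℝ) ≤ n := by exact_mod_cast hn
  have hn0 : (0 : ℝ) < n := by linarith
  have h1 : (2 + η ^ 4) / (n : ℝ) < 1 := by
    rw [div_lt_one hn0]
    have h2 : η ^ 4 ≤ (1 / 10) ^ 4 := pow_le_pow_left₀ hη.le hη1 4
    norm_num at h2
    linarith
  exact sec_core n s r S R η d σ hn hη hη1 hd0 hd hs hr
    (fun a => e_le s S _ d hs h1 a) (fun b => e_le r R _ d hr h1 b) hc

end Pool.Agent.PJC.H67
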